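import Pool.Agent.V1175.BA.Main

open MeasureTheory
open Pool.Agent.V1175.BA

namespace Pool.Agent.Results.MP_ba6fcd_an.NotTile

/-- A wavelet set with respect to a non-product index set need not tile additively. -/
theorem result : ∃ (G : Type) (_ : CommGroup G) (_ : TopologicalSpace G)
    (_ : IsTopologicalGroup G) (_ : LocallyCompactSpace G) (_ : MeasurableSpace G)
    (_ : BorelSpace G),
    T2Space G ∧ SecondCountableTopology G ∧ Infinite G ∧ ¬ DiscreteTopology G ∧
    (∃ Γ : Subgroup G, DiscreteTopology Γ ∧ CompactSpace (G ⧸ Γ)) ∧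
    ∃ B : Set (G × (G ≃ₜ* G)), B.Countable ∧ (∀ b ∈ B, mulEquivHaarChar b.2 ≠ 1) ∧
      (∃ a : G ≃ₜ* G, (1, a) ∈ B) ∧
      ∃ Ω : Set (PontryaginDual G), IsWaveletSet B Ω ∧ ¬ TilesAdditively Ω :=
  main

end Pool.Agent.Results.MP_ba6fcd_an.NotTile
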